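import Pool.Agent.Helper13.Sof.Goals
import Pool.Agent.Helper2.Sofic.Basic

/-!
# Packet FREE: free actions of residually finite groups are sofic
-/

namespace Pool.Agent.Helper26.Sof

open Pool.Agent.Helper13.Sof Pool.Agent.Helper2.Sofic

theorem resFin_finset {G : Type} [Group G] (hG : ResFin G) (T : Finset G) :
    ∃ (Q : Type) (_ : Group Q) (_ : Finite Q) (f : G →* Q), ∀ g ∈ T, g ≠ 1 → f g ≠ 1 := by
  classical
  induction T using Finset.induction_on with
  | empty => exact ⟨Unit, inferInstance, inferInstance, 1, fun g hg => absurd hg (by simp)⟩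
  | insert a T _ ih =>
    obtain ⟨Q₁, i₁, j₁, f₁, h₁⟩ := ih
    by_cases ha : a = 1
    · refine ⟨Q₁, i₁, j₁, f₁, fun g hg hg1 => ?_⟩
      rcases Finset.mem_insert.mp hg with h | h
      · exact absurd (h.trans ha) hg1
      · exact h₁ g h hg1
    · obtain ⟨Q₂, i₂, j₂, f₂, h₂⟩ := hG a ha
      refine ⟨Q₁ × Q₂, inferInstance, inferInstance, f₁.prod f₂, fun g hg hg1 => ?_⟩
      rcases Finset.mem_insert.mp hg with h | h
      · intro h'
        have := congrArg Prod.snd h'
        rw [h] at this
        exact h₂ this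
      · intro h'
        have := congrArg Prod.fst h'
        exact h₁ g h hg1 this

theorem freeSofic : FreeSofic := by
  classical
  intro G X _ α hRF hfree F E ε hε
  -- orbit representatives
  let st : Setoid X :=
    { r := fun x y => ∃ g, α g y = x
      iseqv :=
        { refl := fun x => ⟨1, by simp⟩
          symm := by
            rintro x y ⟨g, hg⟩
            refine ⟨g⁻¹, ?_⟩
            rw [← hg, ← Equiv.Perm.mul_apply, ← map_mul, inv_mul_cancel, map_one]
            rfl
          trans := by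
            rintro x y z ⟨g, hg⟩ ⟨h, hh⟩
            refine ⟨g * h, ?_⟩
            rw [map_mul, Equiv.Perm.mul_apply, hh, hg] } }
  let rep : X → X := fun x => (Quotient.mk st x).out
  have hrep : ∀ x, ∃ g, α g (rep x) = x := by
    intro x
    have h : st.r (rep x) x := Quotient.exact (Quotient.out_eq (Quotient.mk st x))
    exact st.iseqv.symm h
  choose ga hga using hrep
  have hrepα : ∀ g x, rep (α g x) = rep x := by
    intro g x
    have h : Quotient.mk st (α g x) = Quotient.mk st x := Quotient.sound ⟨g, rfl⟩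
    show (Quotient.mk st (α g x)).out = (Quotient.mk st x).out
    rw [h]
  have hgaα : ∀ g x, ga (α g x) = g * ga x := by
    intro g x
    have h1 : α (ga (α g x)) (rep x) = α g x := by
      have := hga (α g x)
      rwa [hrepα] at this
    have h2 : α ((g * ga x)⁻¹ * ga (α g x)) (rep x) = rep x := by
      rw [map_mul, Equiv.Perm.mul_apply, h1, map_inv, Equiv.Perm.inv_eq_iff_eq, map_mul,
        Equiv.Perm.mul_apply, hga]
    have h3 := hfree _ _ h2
    exact (inv_mul_eq_one.mp h3).symm
  -- the finite quotient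
  obtain ⟨Q, iQ, jQ, f, hf⟩ := resFin_finset hRF
    ((E ×ˢ E).image fun q => (ga q.1)⁻¹ * ga q.2)
  have hf' : ∀ x ∈ E, ∀ y ∈ E, f (ga x) = f (ga y) → ga x = ga y := by
    intro x hx y hy h
    by_contra hne
    refine hf ((ga x)⁻¹ * ga y) ?_ ?_ ?_
    · exact Finset.mem_image.mpr ⟨(x, y), Finset.mem_product.mpr ⟨hx, hy⟩, rfl⟩
    · intro h'
      exact hne (inv_mul_eq_one.mp h')
    · rw [map_mul, map_inv, h, inv_mul_cancel]
  refine ⟨Q, jQ, fun g => Equiv.mulLeft (f g), ?_, ?_, ?_⟩
  · ext s
    simp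
  · intro g _ h _
    have : Equiv.mulLeft (f (g * h)) = Equiv.mulLeft (f g) * Equiv.mulLeft (f h) := by
      ext s
      simp
    show hdist (Equiv.mulLeft (f (g * h))) (Equiv.mulLeft (f g) * Equiv.mulLeft (f h)) < ε
    rw [this, hdist_self]
    exact hε
  · refine isOrbitApprox_of_any α _ F E ε (Q × X) Set.univ
      (fun s x => (s⁻¹ * f (ga x), rep x)) ?_ ?_ ?_
    · rw [Nat.card_congr (Equiv.Set.univ Q)]
      have hpos : 0 < (Nat.card Q : ℝ) := by
        exact_mod_cast Nat.card_pos
      nlinarith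
    · intro s _ x hx y hy hxy
      have h1 : s⁻¹ * f (ga x) = s⁻¹ * f (ga y) := congrArg Prod.fst hxy
      have h2 : rep x = rep y := congrArg Prod.snd hxy
      have h3 : ga x = ga y := hf' x hx y hy (mul_left_cancel h1)
      rw [← hga x, ← hga y, h3, h2]
    · intro s _ g _ x _ _ _
      show ((Equiv.mulLeft (f g) s)⁻¹ * f (ga x), rep x) =
        (s⁻¹ * f (ga (α g⁻¹ x)), rep (α g⁻¹ x))
      rw [hrepα, hgaα, Equiv.coe_mulLeft, mul_inv_rev, map_mul, map_inv, mul_assoc]

end Pool.Agent.Helper26.Sof
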